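import Mathlib
import Pool.Agent.H.MP_96bab1_co.Hash

set_option autoImplicit false

namespace Pool.Agent.Results.MP_96bab1_co.Rate
open Finset Filter Pool.Agent.H.MP_96bab1_co

/-- The set U of identified traitors after the first i rounds, when the received symbols are
d and the tracing algorithm A sees the symbols received so far and the current U. -/
def run {l q : ℕ} (A : List (Fin q) → Finset (Fin l → Fin q) → Finset (Fin l → Fin q))
    (d : Fin l → Fin q) : ℕ → Finset (Fin l → Fin q)
  | 0 => ∅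
  | i + 1 => run A d i ∪ A ((List.ofFn d).take (i + 1)) (run A d i)

/-- Sequential k-IPP code: for some algorithm, for every traitor set X and every play that lasts
t rounds (each symbol coming from a traitor not yet identified), only traitors have been
identified, and all of them have been identified if t is the length of the code. -/
def SeqIPP {l q : ℕ} (k : ℕ) (C : Finset (Fin l → Fin q)) : Prop :=
  ∃ A : List (Fin q) → Finset (Fin l → Fin q) → Finset (Fin l → Fin q),
    ∀ X ⊆ C, X.card ≤ k → ∀ d : Fin l → Fin q, ∀ t ≤ l,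
      (∀ i : Fin l, i.val < t → ∃ x ∈ X, x ∉ run A d i ∧ x i = d i) →
      run A d t ⊆ X ∧ (t = l → run A d t = X)

open Classical in
/-- The largest size of a sequential q-ary k-IPP code of length l. -/
noncomputable def N (q l k : ℕ) : ℕ :=
  (univ.filter fun C : Finset (Fin l → Fin q) => SeqIPP k C).sup Finset.card

/-- The maximum rate. -/
noncomputable def R (q l k : ℕ) : ℝ := Real.logb q (N q l k) / l

/-- The greedy tracer. -/
noncomputable def G {l q : ℕ} (k : ℕ) (C : Finset (Fin l → Fin q)) (L : List (Fin q)) :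
    Finset (Fin l → Fin q) :=
  @Finset.filter _ (fun c => ∀ Y ⊆ C, Y.card ≤ k → (∀ i : Fin l, ∀ _h : i.val < L.length,
    ∃ y ∈ Y, y ∉ G k C (L.take i) ∧ L[i.val]? = some (y i)) → c ∈ Y) (Classical.decPred _) C
termination_by L.length
decreasing_by all_goals (simp only [List.length_take]; omega)

theorem mem_G {l q : ℕ} (k : ℕ) (C : Finset (Fin l → Fin q)) (d : Fin l → Fin q) (t : ℕ)
    (ht : t ≤ l) (c : Fin l → Fin q) : c ∈ G k C ((List.ofFn d).take t) ↔ c ∈ C ∧
      ∀ Y ⊆ C, Y.card ≤ k → (∀ i : Fin l, i.val < t →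
        ∃ y ∈ Y, y ∉ G k C ((List.ofFn d).take i) ∧ y i = d i) → c ∈ Y := by
  rw [G, @mem_filter _ _ (Classical.decPred _)]
  have h1 : ((List.ofFn d).take t).length = t := by simp [ht]
  refine and_congr_right fun _ => forall_congr' fun Y => forall_congr' fun _ =>
    forall_congr' fun _ => imp_congr_left (forall_congr' fun i => ?_)
  rw [h1]
  refine forall_congr' fun hi => ?_
  rw [List.take_take, min_eq_left hi.le, List.getElem?_take_of_lt hi]
  simp [eq_comm]

theorem seq_of {l q k : ℕ} (C : Finset (Fin l → Fin q))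
    (h : ∀ X d g, Play k C X d g → X ⊆ g l) : SeqIPP k C := by
  let g : (Fin l → Fin q) → ℕ → Finset (Fin l → Fin q) := fun d t => G k C ((List.ofFn d).take t)
  have h0 : ∀ d, g d 0 = ∅ := fun d => eq_empty_of_forall_notMem fun c hc => by
    simpa using ((mem_G k C d 0 (Nat.zero_le _) c).1 hc).2 ∅ (empty_subset _) (by simp) (by simp)
  have hm : ∀ d s t, s ≤ t → t ≤ l → g d s ⊆ g d t := fun d s t hs ht c hc => by
    obtain ⟨h1, h2⟩ := (mem_G k C d s (hs.trans ht) c).1 hc
    exact (mem_G k C d t ht c).2 ⟨h1, fun Y h3 h4 h5 => h2 Y h3 h4 fun i hi => h5 i (by omega)⟩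
  have hr : ∀ d t, t ≤ l → run (fun L _ => G k C L) d t = g d t := by
    intro d t
    induction t with
    | zero => exact fun _ => (h0 d).symm
    | succ t ih =>
      intro ht
      rw [run, ih (by omega)]
      exact union_eq_right.2 (hm d t (t + 1) (by omega) ht)
  refine ⟨fun L _ => G k C L, fun X hX hk d t ht hd => ?_⟩
  rw [hr d t ht]
  have hd' : ∀ i : Fin l, i.val < t → ∃ x ∈ X, x ∉ g d i ∧ x i = d i := fun i hi => by
    simpa only [hr d i i.2.le] using hd i hi
  have h1 : g d t ⊆ X := fun c hc => ((mem_G k C d t ht c).1 hc).2 X hX hk hd'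
  refine ⟨h1, fun e => Subset.antisymm h1 ?_⟩
  subst e
  refine h X d (g d) ⟨hX, hk, h0 d, hm d, fun s hs => (hm d s t hs le_rfl).trans h1,
    fun i => hd' i i.2, fun s hs c hc hc' => ?_⟩
  have h2 := fun h => hc' ((mem_G k C d s hs c).2 ⟨hc, h⟩)
  obtain ⟨Y, h2⟩ := not_forall.1 h2
  simp only [Classical.not_imp] at h2
  obtain ⟨h3, h4, h5, h6⟩ := h2
  exact ⟨Y, h3, h4, fun c' hc' => ((mem_G k C d s hs c').1 hc').2 Y h3 h4 h5, h6, h5⟩

theorem sum_tri (k : ℕ) : 2 * ∑ s ∈ range k, (k - s) = k * (k + 1) := by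
  induction k with
  | zero => simp
  | succ k ih =>
    rw [sum_range_succ']
    simp only [Nat.add_sub_add_right, Nat.sub_zero]
    linarith

theorem card_le {l q k j : ℕ} (hk : 1 ≤ k) (hq : 1 ≤ q) (hl : 2 * l < j * (k * (k + 1)) + 2 * k)
    (C : Finset (Fin l → Fin q)) (hC : SeqIPP k C) : C.card ≤ l * (k * q ^ j) + k := by
  classical
  obtain ⟨A, hA⟩ := hC
  by_contra hbig
  let B : ℕ → Finset (Fin l) := fun s => univ.filter fun i => s ≤ i.val ∧ i.val < s + j
  let agr : ℕ → (Fin l → Fin q) → Finset (Fin l → Fin q) := fun s c =>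
    C.filter fun y => ∀ i ∈ B s, y i = c i
  have hB : ∀ s, (B s).card ≤ j := fun s => by
    have := card_le_card_of_injOn (s := B s) (t := Ico s (s + j)) Fin.val
      (fun i hi => by simpa [B] using hi) Fin.val_injective.injOn
    simpa using this
  have hbad : ∀ s, (C.filter fun c => (agr s c).card ≤ k).card ≤ k * q ^ j := by
    intro s
    refine (card_le_mul_card_image (f := fun c (i : B s) => c i) _ k fun a ha => ?_).trans
      (Nat.mul_le_mul_left _ ((card_le_univ _).trans ?_))
    · obtain ⟨c, hc, rfl⟩ := mem_image.1 ha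
      refine le_trans (card_le_card fun y hy => ?_) (mem_filter.1 hc).2
      obtain ⟨h1, h2⟩ := mem_filter.1 hy
      exact mem_filter.2 ⟨(mem_filter.1 h1).1, fun i hi => congrFun h2 ⟨i, hi⟩⟩
    · simp only [Fintype.card_fun, Fintype.card_fin, Fintype.card_coe]
      exact Nat.pow_le_pow_right hq (hB s)
  let good := C.filter fun c => ∀ s < l, k < (agr s c).card
  have hgood : k ≤ good.card := by
    have h1 : C ⊆ good ∪ (range l).biUnion fun s => C.filter fun c => (agr s c).card ≤ k := by
      intro c hc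
      by_cases h : ∀ s < l, k < (agr s c).card
      · exact mem_union_left _ (mem_filter.2 ⟨hc, h⟩)
      · simp only [not_forall, not_lt] at h
        obtain ⟨s, hs, h⟩ := h
        exact mem_union_right _ (mem_biUnion.2 ⟨s, mem_range.2 hs, mem_filter.2 ⟨hc, h⟩⟩)
    have h2 := (card_le_card h1).trans (card_union_le _ _)
    have h3 := card_biUnion_le_card_mul (range l) _ _ fun s _ => hbad s
    rw [card_range] at h3
    omega
  obtain ⟨emb⟩ := Function.Embedding.nonempty_of_card_le (α := Fin k) (β := good)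
    (by simpa using hgood)
  let c : ℕ → Fin l → Fin q := fun r => (emb ⟨r % k, Nat.mod_lt _ hk⟩).1
  have hcg : ∀ r, c r ∈ good := fun r => (emb _).2
  have hcC : ∀ r, c r ∈ C := fun r => (mem_filter.1 (hcg r)).1
  have hci : ∀ r < k, ∀ s < k, c r = c s → r = s := fun r hr s hs h => by
    have := congrArg Fin.val (emb.injective (Subtype.ext h))
    simpa [Nat.mod_eq_of_lt hr, Nat.mod_eq_of_lt hs] using this
  let P : ℕ → Finset (Fin l → Fin q) := fun r => (range r).image c
  have hP : ∀ r, (P r).card ≤ r := fun r => card_image_le.trans (by simp)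
  have hPC : ∀ r, P r ⊆ C := fun r w hw => by
    obtain ⟨s, -, rfl⟩ := mem_image.1 hw
    exact hcC s
  have hPm : ∀ r s, r ≤ s → P r ⊆ P s := fun r s h => image_subset_image (range_subset_range.2 h)
  have hPn : ∀ r < k, c r ∉ P r := fun r hr h => by
    obtain ⟨s, hs, h⟩ := mem_image.1 h
    have h1 := mem_range.1 hs
    have := hci s (by omega) r hr h
    omega
  have hy : ∀ r s, ∃ y ∈ C, y ∉ P k ∧ (s < l → ∀ i ∈ B s, y i = c r i) := by
    intro r s
    by_cases hs : s < l
    · obtain ⟨y, h1, h2⟩ := exists_mem_notMem_of_card_lt_card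
        ((hP k).trans_lt ((mem_filter.1 (hcg r)).2 s hs))
      exact ⟨y, (mem_filter.1 h1).1, h2, fun _ => (mem_filter.1 h1).2⟩
    · obtain ⟨y, h1, h2⟩ := exists_mem_notMem_of_card_lt_card (s := P k) (t := C)
        ((hP k).trans_lt (by omega))
      exact ⟨y, h1, h2, fun h => absurd h hs⟩
  choose y hyC hyP hy using hy
  let S : ℕ → ℕ := fun r => ∑ s ∈ range r, ((k - s) * j + 1)
  have hS : ∀ r, S (r + 1) = S r + ((k - r) * j + 1) := fun r => sum_range_succ _ _
  have hSk : l < S (k - 1 + 1) := by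
    rw [Nat.sub_add_cancel hk]
    simp only [S, sum_add_distrib, ← sum_mul, sum_const, card_range, smul_eq_mul, mul_one]
    have := sum_tri k
    nlinarith
  have hex : ∀ i : Fin l, ∃ r, i.val < S (r + 1) := fun i => ⟨k - 1, i.2.trans hSk⟩
  let ph : Fin l → ℕ := fun i => Nat.find (hex i)
  have hph1 : ∀ i, i.val < S (ph i + 1) := fun i => Nat.find_spec (hex i)
  have hph2 : ∀ i r, i.val < S (r + 1) → ph i ≤ r := fun i r h => Nat.find_min' _ h
  have hph3 : ∀ i, S (ph i) ≤ i.val := fun i => by
    rcases Nat.eq_zero_or_pos (ph i) with h | h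
    · simp [h, S]
    · have := Nat.find_min (hex i) (m := ph i - 1) (by simp only [ph] at h ⊢; omega)
      rw [Nat.sub_add_cancel h] at this
      omega
  have hph4 : ∀ i, ph i < k := fun i => by
    have := hph2 i (k - 1) (i.2.trans hSk)
    omega
  let d : Fin l → Fin q := fun i => c (ph i) i
  have main : ∀ t, t ≤ l → ∀ r < k, t < S (r + 1) → run A d t ⊆ P r := by
    intro t
    induction t using Nat.strong_induction_on with
    | _ t ih =>
    intro ht r hr htr
    have h0 : ∀ i : Fin l, i.val < t → run A d i ⊆ P (ph i) := fun i hi =>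
      ih i hi i.2.le _ (hph4 i) (hph1 i)
    have h1 := (hA (P (r + 1)) (hPC _) ((hP _).trans hr) d t ht fun i hi =>
      ⟨c (ph i), mem_image_of_mem _ (mem_range.2 (Nat.lt_succ_of_le (hph2 i r (by omega)))),
        fun h => hPn _ (hph4 i) (h0 i hi h), rfl⟩).1
    have h2 := (hA (P r ∪ (range (k - r)).image fun b => y r (S r + b * j))
      (union_subset (hPC _) fun w hw => by
        obtain ⟨b, -, rfl⟩ := mem_image.1 hw
        exact hyC _ _)
      ((card_union_le _ _).trans (by
        have h3 := hP r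
        have h4 := card_image_le (s := range (k - r)) (f := fun b => y r (S r + b * j))
        rw [card_range] at h4
        omega)) d t ht fun i hi => by
      rcases (hph2 i r (by omega)).lt_or_eq with h3 | h3
      · exact ⟨c (ph i), mem_union_left _ (mem_image_of_mem _ (mem_range.2 h3)),
          fun h => hPn _ (hph4 i) (h0 i hi h), rfl⟩
      · have h4 := hph3 i
        rw [h3] at h4
        have h5 : i.val - S r < (k - r) * j := by have := hS r; omega
        have hj : 0 < j := Nat.pos_of_mul_pos_left (by omega : 0 < (k - r) * j)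
        have h6 := Nat.div_add_mod (i.val - S r) j
        have h7 := Nat.mod_lt (i.val - S r) hj
        rw [mul_comm] at h6
        refine ⟨y r (S r + (i.val - S r) / j * j), mem_union_right _ (mem_image_of_mem _
          (mem_range.2 ((Nat.div_lt_iff_lt_mul hj).2 h5))),
          fun h => hyP _ _ (hPm _ _ (hph4 i).le (h0 i hi h)), ?_⟩
        simp only [d, h3]
        have := i.2
        exact hy _ _ (by omega) i (mem_filter.2 ⟨mem_univ _, by omega, by omega⟩)).1
    intro w hw
    rcases mem_union.1 (h2 hw) with h | h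
    · exact h
    · obtain ⟨b, -, rfl⟩ := mem_image.1 h
      exact absurd (hPm _ _ hr (h1 hw)) (hyP _ _)
  have h1 := (hA (P k) (hPC _) (hP _) d l le_rfl fun i _ =>
    ⟨c (ph i), mem_image_of_mem _ (mem_range.2 (hph4 i)),
      fun h => hPn _ (hph4 i) (main i i.2.le _ (hph4 i) (hph1 i) h), rfl⟩).2 rfl
  refine hPn (k - 1) (by omega) (main l le_rfl (k - 1) (by omega) hSk ?_)
  rw [h1]
  exact mem_image_of_mem _ (mem_range.2 (by omega))

theorem card_le_small {l q k : ℕ} (hq : 1 ≤ q) (hk : q ≤ k) (C : Finset (Fin l → Fin q))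
    (hC : SeqIPP k C) : C.card ≤ q := by
  classical
  obtain ⟨A, hA⟩ := hC
  by_contra hbig
  obtain ⟨W, hW, hWc⟩ := exists_subset_card_eq (s := C) (n := q + 1) (by omega)
  have hcol : ∀ i : Fin l, ∃ x ∈ W, ∃ y ∈ W, x ≠ y ∧ x i = y i := fun i =>
    exists_ne_map_eq_of_card_lt_of_maps_to (t := univ) (by simp [hWc]) (fun _ _ => mem_univ _)
  choose x hx y hy hne heq using hcol
  have hval : ∀ w ∈ W, ∀ t ≤ l, (∀ i : Fin l, i.val < t → run A (fun i => x i i) i = ∅) →
      run A (fun i => x i i) t ⊆ W.erase w ∧ (t = l → run A (fun i => x i i) t = W.erase w) := by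
    intro w hw t ht h
    refine hA _ ((erase_subset _ _).trans hW) (by rw [card_erase_of_mem hw]; omega) _ t ht
      fun i hi => ?_
    rw [h i hi]
    by_cases h1 : x i = w
    · exact ⟨y i, mem_erase.2 ⟨fun h2 => hne i (h1.trans h2.symm), hy i⟩, by simp, (heq i).symm⟩
    · exact ⟨x i, mem_erase.2 ⟨h1, hx i⟩, by simp, rfl⟩
  obtain ⟨w0, hw0⟩ : W.Nonempty := card_pos.1 (by omega)
  have main : ∀ t, t ≤ l → run A (fun i => x i i) t = ∅ := by
    intro t
    induction t using Nat.strong_induction_on with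
    | _ t ih =>
    intro ht
    refine eq_empty_of_forall_notMem fun c hc => ?_
    have h1 := fun w hw => (hval w hw t ht fun i hi => ih i hi i.2.le).1 hc
    exact (mem_erase.1 (h1 c (mem_of_mem_erase (h1 w0 hw0)))).1 rfl
  have h2 := (hval w0 hw0 l le_rfl fun i _ => main i i.2.le).2 rfl
  have h3 := congrArg Finset.card h2
  rw [main l le_rfl, card_erase_of_mem hw0, card_empty] at h3
  omega

theorem N_le {q l k n : ℕ} (h : ∀ C : Finset (Fin l → Fin q), SeqIPP k C → C.card ≤ n) :
    N q l k ≤ n := Finset.sup_le fun C hC => h C (by simpa using hC)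

theorem le_N {q l k : ℕ} (C : Finset (Fin l → Fin q)) (h : SeqIPP k C) : C.card ≤ N q l k := by
  classical
  exact Finset.le_sup (f := Finset.card) (by simpa using h)

theorem logb_mono {q a : ℕ} {b : ℝ} (hq : 2 ≤ q) (hb : 1 ≤ b) (h : (a : ℝ) ≤ b) :
    Real.logb q a ≤ Real.logb q b := by
  have hq' : (1 : ℝ) < q := by exact_mod_cast hq
  rcases Nat.eq_zero_or_pos a with rfl | ha
  · simpa using Real.logb_nonneg hq' hb
  · exact Real.logb_le_logb_of_le hq' (by exact_mod_cast ha) h

theorem logb_nn (q a : ℕ) : 0 ≤ Real.logb q a :=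
  div_nonneg (Real.log_natCast_nonneg _) (Real.log_natCast_nonneg _)

theorem partA (l k : ℕ) (hk : 1 ≤ k) : Tendsto (fun q : ℕ => Real.logb q (N q l k)) atTop
    (nhds (((l + k * (k + 1) / 2 - k) / (k * (k + 1) / 2) : ℕ) : ℝ)) := by
  set T := k * (k + 1) / 2 with hT
  have hT2 : 2 * T = k * (k + 1) := Nat.mul_div_cancel' (Nat.even_mul_succ_self k).two_dvd
  have hTk : k ≤ T := by nlinarith
  set e := (l + T - k) / T with he
  have h1 := Nat.div_add_mod (l + T - k) T
  have h2 := Nat.mod_lt (l + T - k) (by omega : 0 < T)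
  rw [← he] at h1
  refine tendsto_order.2 ⟨fun a ha => ?_, fun a ha => ?_⟩
  · rcases Nat.eq_zero_or_pos e with h0 | h0
    · refine Eventually.of_forall fun q => lt_of_lt_of_le ?_ (logb_nn _ _)
      simpa [h0] using ha
    obtain ⟨j, hj⟩ : ∃ j, e = j + 1 := ⟨e - 1, by omega⟩
    rw [hj] at h1 ha
    have h3 : T * j + k ≤ l := by rw [mul_add] at h1; omega
    obtain ⟨Q, hQ⟩ := sparse_large (k + k * k) j l (by nlinarith) (by nlinarith)
      (min (((j + 1 : ℕ) : ℝ) - a) 1) (lt_min (by linarith) one_pos) (min_le_right _ _)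
    filter_upwards [eventually_ge_atTop Q, eventually_ge_atTop 2] with q hq hq2
    obtain ⟨C, hC, h4⟩ := hQ q hq
    have h5 := le_N C (seq_of C fun X d g P => play_sparse P hC (by rw [← hT2]; nlinarith))
    have hq' : (1 : ℝ) < q := by exact_mod_cast hq2
    have h6 : (q : ℝ) ^ a < N q l k := by
      refine lt_of_le_of_lt (Real.rpow_le_rpow_of_exponent_le hq'.le ?_)
        (h4.trans_le (by exact_mod_cast h5))
      linarith [min_le_left (((j + 1 : ℕ) : ℝ) - a) 1]
    exact (Real.lt_logb_iff_rpow_lt hq' (lt_trans (by positivity) h6)).2 h6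
  · have h3 : Tendsto (fun q : ℕ => (q : ℝ) ^ (a - e)) atTop atTop :=
      (tendsto_rpow_atTop (by linarith)).comp tendsto_natCast_atTop_atTop
    filter_upwards [h3.eventually_gt_atTop ((l * k + k : ℕ) : ℝ), eventually_ge_atTop 2]
      with q hq hq2
    have hq' : (1 : ℝ) < q := by exact_mod_cast hq2
    have h4 : N q l k ≤ (l * k + k) * q ^ e := by
      refine (N_le fun C hC => card_le (j := e) hk (by omega) (by rw [← hT2]; nlinarith [
        (by omega : l + T - k + k = l + T)]) C hC).trans ?_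
      have : 1 ≤ q ^ e := Nat.one_le_pow _ _ (by omega)
      nlinarith
    have h5 : (1 : ℝ) ≤ (((l * k + k) * q ^ e : ℕ) : ℝ) := by
      have : 1 ≤ q ^ e := Nat.one_le_pow _ _ (by omega)
      exact_mod_cast Nat.mul_pos (by omega : 0 < l * k + k) this
    refine (logb_mono hq2 h5 (by exact_mod_cast h4)).trans_lt ?_
    rw [Real.logb_lt_iff_lt_rpow hq' (by linarith)]
    have h6 : (q : ℝ) ^ a = (q : ℝ) ^ (a - e) * (q : ℝ) ^ e := by
      rw [← Real.rpow_natCast, ← Real.rpow_add (by linarith), sub_add_cancel]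
    rw [h6, Nat.cast_mul, Nat.cast_pow]
    exact mul_lt_mul_of_pos_right hq (by positivity)

theorem result :
    (∀ l k : ℕ, 1 ≤ l → 1 ≤ k → Tendsto (fun q => R q l k) atTop
      (nhds ((((l + k * (k + 1) / 2 - k) / (k * (k + 1) / 2) : ℕ) : ℝ) / l))) ∧
    (∀ q k : ℕ, 2 ≤ q → q ≤ k → Tendsto (fun l => R q l k) atTop (nhds 0)) ∧
    (∀ q k : ℕ, 1 ≤ k → k < q → ∃ c : ℝ, 0 < c ∧ ∀ᶠ l in atTop, c ≤ R q l k) := by
  refine ⟨fun l k _ hk => (partA l k hk).div_const _, fun q k hq hk => ?_, fun q k hk hq => ?_⟩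
  · refine squeeze_zero (fun l => div_nonneg (logb_nn _ _) (Nat.cast_nonneg _)) (fun l => ?_)
      (tendsto_const_div_atTop_nhds_zero_nat (Real.logb q q))
    refine div_le_div_of_nonneg_right (logb_mono hq (by exact_mod_cast (by omega : 1 ≤ q)) ?_)
      (Nat.cast_nonneg _)
    exact_mod_cast N_le fun C hC => card_le_small (by omega) hk C hC
  · obtain ⟨L, hL, h⟩ := exists_sep q k hk hq
    have hq' : (1 : ℝ) < q := by exact_mod_cast (by omega : 1 < q)
    have hlog : 0 < Real.logb q 2 := Real.logb_pos hq' one_lt_two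
    have hLk : 0 < L * k := Nat.mul_pos hL hk
    refine ⟨Real.logb q 2 / ((2 * (L * k) : ℕ) : ℝ), by positivity, ?_⟩
    filter_upwards [eventually_ge_atTop (L * k)] with l hl
    have h1 : 1 ≤ l / (L * k) := (Nat.le_div_iff_mul_le hLk).2 (by omega)
    obtain ⟨C, hC, h2⟩ := h l (l / (L * k)) h1 (by rw [mul_assoc]; exact Nat.div_mul_le_self _ _)
    have h3 := le_N C (seq_of C fun X d g P => play_sep P hC)
    rw [h2] at h3
    have h4 : ((l / (L * k) : ℕ) : ℝ) * Real.logb q 2 ≤ Real.logb q (N q l k) := by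
      rw [← Real.logb_pow]
      exact Real.logb_le_logb_of_le hq' (by positivity) (by exact_mod_cast h3)
    have h5 : l ≤ l / (L * k) * (2 * (L * k)) := by
      have := Nat.lt_div_mul_add (a := l) hLk
      nlinarith
    have h6 : (l : ℝ) ≤ ((l / (L * k) : ℕ) : ℝ) * ((2 * (L * k) : ℕ) : ℝ) := by exact_mod_cast h5
    have hl0 : (0 : ℝ) < l := by exact_mod_cast (by omega : 0 < l)
    rw [R, div_le_div_iff₀ (by positivity) hl0]
    have h7 : (0 : ℝ) ≤ ((2 * (L * k) : ℕ) : ℝ) := Nat.cast_nonneg _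
    nlinarith

end Pool.Agent.Results.MP_96bab1_co.Rate
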